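import Mathlib
import Pool.Agent.Y229.PA.CmpH

/-!
# Denef's question for compositions and stably sparse polynomials, for every prime, with orders

Let `f ∈ ℤ[x_1, …, x_n]` be non-constant. The real parts `t_0` of the poles of Igusa's Poincaré series
`P_{f,p}(T)` should be roots of the Bernstein-Sato polynomial, for EVERY prime `p` (Q1). We prove this, with the
bound that the order of the pole is at most the multiplicity of the root, for

1. stably sparse polynomials: `f(x) + y_1 z_1 + ⋯ + y_κ z_κ` becomes, by an isomorphism of polynomial rings over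
   `ℤ`, a polynomial with at least two monomials whose exponents are affinely independent (arbitrary
   coefficients `≠ 0`);
2. in particular all non-constant compositions `f(x) = Φ(x, q_1(x), …, q_κ(x))` such that the exponents of
   `Φ(x, z) + ∑_i y_i (z_i - q_i(x))` are affinely independent, for example
   `f = x ^ u ∏_i (x ^ (α_i) - λ_i x ^ (β_i)) ^ (e_i)` for linearly independent `α_i - β_i` and
   arbitrary `λ_i ≠ 0`, `u`, `e_i ≥ 1`, and suitable sums of such products. They are in general degenerate for
   their Newton polyhedra in all coordinates, not reduced, and have non-isolated singularities;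
3. compositions `f(x) = Φ_a(x, p_b(x))` with generic coefficients: `Φ_a(x, z) = ∑_j a_j x ^ (m_j) z ^ (m_j') + h₀(x, z)`
   and `p_{b,i}(x) = ∑_{ι l = i} b_l x ^ (w_l) + h_i(x)`, where `h₀`, `h_i` are fixed polynomials whose monomials are in
   the Newton polyhedron of the other ones, and the integers `a_j`, `b_l` are generic (`g(a, b) ≠ 0` for
   a certain nonzero polynomial `g`), at the levels where the condition of the theorem on generic coefficients
   (simplices, `B1`-facets) holds for the polynomial `Φ(x, z) + ∑_i y_i (z_i - p_i(x))`.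

The starting results for this problem are on polynomials with affinely independent exponents (the case `κ = 0` of 1),
generic coefficients (`κ = 0` of 3), products of sparse polynomials and Thom-Sebastiani sums. For almost all primes
(not for every prime) the statement 2 is in the starting result `MP_e7463b_ag.CubicsAndCompositions`.

The theorems `Pool.Agent.Y229.PA.sparse_down` and `Pool.Agent.Y229.PA.cmpH` are in the starting library (helper229
and others, projects PA, EP, CU); they were not handed in. Method. Counting solutions of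
congruences gives, for every prime, the exact relation of the Poincaré series of `f` and `f + ∑ y_i z_i`; no
resolution of singularities is used. A functional equation of `f` with `b(s) = (s + 1) c(s)` gives one of
`f + ∑ y_i z_i` with `(s + 1) c(s + κ)`. The results for affinely independent exponents and for generic
coefficients, for every prime and with orders, are applied to the transformed polynomial.
-/

set_option autoImplicit false

namespace Pool.Agent.Results.MP_5d9b3c_ag.CompositionsEveryPrime

open MvPolynomial Pool.Agent.Y229.PA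
open Pool.Agent.W206.CU (poincare IsPoleOfOrder toC)
open Pool.Agent.H628R4.TP (IsBFunction)
open Pool.Agent.W425.SV (NP)

/-- The conclusion of Q1 for `f`, with orders: for every prime `p`, every pole `T₀` of order `μ` of the Poincaré series
and every `b ≠ 0` with `b(s) f ^ s = P(s) f ^ (s + 1)`, `P(s)` in the Weyl algebra, polynomial in `s`, the number
`t₀ = - log |T₀| / log p` is a root of `b` of multiplicity at least `μ`. -/
def EveryPrime {n : ℕ} (f : MvPolynomial (Fin n) ℤ) : Prop :=
  ∀ p : ℕ, p.Prime → ∀ (T₀ : ℂ) (μ : ℕ), 0 < μ → IsPoleOfOrder (poincare p f) T₀ μ →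
    ∀ b : Polynomial ℂ, b ≠ 0 → IsBFunction (toC f) b →
      μ ≤ b.rootMultiplicity ((-Real.log ‖T₀‖ / Real.log p : ℝ) : ℂ)

/-- `F` is a polynomial `∑_j a_j X ^ (v j)`, `a_j ≠ 0`, with at least two monomials and affinely independent
exponents. -/
def IsSparse {M : ℕ} (F : MvPolynomial (Fin M) ℤ) : Prop :=
  ∃ (r : ℕ) (v : Fin r → Fin M → ℕ) (a : Fin r → ℤ), 2 ≤ r ∧
    AffineIndependent ℚ (fun (j : Fin r) (i : Fin M) => (v j i : ℚ)) ∧ (∀ j, a j ≠ 0) ∧
    F = ∑ j, C (a j) * ∏ i, X i ^ v j i

/-- **Denef's question for stably sparse polynomials, compositions with affinely independent exponents and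
compositions with generic coefficients, for every prime, with orders.**

`poincare p f = ∑_m a_m (p ^ (-n) T) ^ m`, `a_m` the number of zeros of `f` modulo `p ^ m`; `IsPoleOfOrder P T₀ m`:
the rational function `P` has a pole of order `m` at `T₀`; `toC f` is `f` as a polynomial over `ℂ`.

First part: `stabS f κ = f(x) + ∑_{i ≤ κ} y_i z_i`, `ψ` an isomorphism of polynomial rings.

Second part: `aeval (Sum.elim X q) Φ = Φ(x, q_1(x), …, q_κ(x))` and `graphS Φ q = Φ(x, z) + ∑_i y_i (z_i - q_i(x))`;
`spl` numbers the variables `x, y, z`.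

Third part: `compH m w ι h₀ h a b = Φ_a(x, p_b(x))`, where `Φ_a = ∑_j a_j (x, z) ^ (m_j) + h₀` and
`p_{b,i} = ∑_{ι l = i} b_l x ^ (w_l) + h_i`. The exponents of the polynomial
`∑_j a_j (x, z) ^ (m_j) + ∑_i y_i (z_i - ∑_{ι l = i} b_l x ^ (w_l))` are `expG m w ι`, and
`fixH h₀ h = h₀ - ∑_i y_i h_i`; the monomials of the latter are in the Newton polyhedron of the former ones
(`NP`) and different from them, and `h_i = 0` unless `h₀` does not contain `z_i`. `Levels v h κ f` (for `v = expG m w ι`,
`h = fixH h₀ h`) says that for every prime `p`, every pole `T₀` of order `μ` of the Poincaré series of `f` and every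
`b ≠ 0` as above, `t₀ = -σ` with a rational number `σ`, and:
* `b(t₀) = 0` if `LevOK v h (σ + κ)`: if `σ + κ = |a| / N_a` for a ray `a` of the normal fan of the Newton polyhedron of
  the `v j`, then `σ + κ = 1`, or `σ + κ = |a'| / N_{a'}` for some `a'` whose face contains a simplex which is not
  `B1` (`NonB v False a'`), or `HypS` (next line) holds at the level `σ + κ`;
* `μ` is at most the multiplicity of the root `t₀` of `b` if `HypS` holds at the level `σ + κ` for the exponents `v j`
  and those exponents of `h` which are not in their convex hull (`ke v h`): every face `Pt A Z` of the dual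
  polyhedron (`a ≥ 0` with support in `A`, `⟨a, v j⟩ ≥ 1`, with equality for `j ∉ Z`) contained in
  `|a| = σ + κ`, where each `x_i`, `i ∈ A`, occurs in a `v j`, `j ∉ Z`, has one of the following properties: the
  vectors `(v j i)_{i ∈ A}`, `j ∉ Z`, are linearly independent (`Forced`), or it is `B1`: there are `i ∈ A`
  and `j0` with `v j0 i = 1`, such that `a_i ≠ 0` and `⟨a, v j⟩ ≠ 1` for all `a` in the face and all
  `j ≠ j0` with `v j i > 0`. -/
theorem result :
    (∀ (n κ M : ℕ) (f : MvPolynomial (Fin n) ℤ), (toC f).totalDegree ≠ 0 →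
      ∀ ψ : MvPolynomial (Fin n ⊕ (Fin κ ⊕ Fin κ)) ℤ ≃ₐ[ℤ] MvPolynomial (Fin M) ℤ,
        IsSparse (ψ (stabS f κ)) → EveryPrime f) ∧
    (∀ (n κ : ℕ) (Φ : MvPolynomial (Fin n ⊕ Fin κ) ℤ) (q : Fin κ → MvPolynomial (Fin n) ℤ),
      (toC (aeval (Sum.elim X q) Φ)).totalDegree ≠ 0 →
      IsSparse (rename (spl n κ κ).symm (graphS Φ q)) → EveryPrime (aeval (Sum.elim X q) Φ)) ∧
    (∀ (n κ r s : ℕ), 0 < r → 0 < κ → ∀ (m : Fin r → Fin n ⊕ Fin κ → ℕ),
      Function.Injective m → (∀ j, m j ≠ 0) → ∀ (w : Fin s → Fin n → ℕ) (ι : Fin s → Fin κ),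
      (Function.Injective fun l => (ι l, w l)) → ∀ (h₀ : MvPolynomial (Fin n ⊕ Fin κ) ℤ)
        (h : Fin κ → MvPolynomial (Fin n) ℤ),
      (∀ i, h i = 0 ∨ ∀ u ∈ h₀.support, u (Sum.inr i) = 0) →
      (∀ u ∈ (fixH h₀ h).support, NP (expG m w ι) u ∧ ∀ J, ¬ ∀ I, u I = expG m w ι J I) →
      ∃ g : MvPolynomial (Fin r ⊕ Fin s) ℚ, g ≠ 0 ∧ ∀ (a : Fin r → ℤ) (b : Fin s → ℤ),
        eval (fun J => ((Sum.elim a b J : ℤ) : ℚ)) g ≠ 0 →
        (toC (compH m w ι h₀ h a b)).totalDegree ≠ 0 →
        Levels (expG m w ι) (fixH h₀ h) κ (compH m w ι h₀ h a b)) := by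
  have h1 : ∀ (n κ M : ℕ) (f : MvPolynomial (Fin n) ℤ), (toC f).totalDegree ≠ 0 →
      ∀ ψ : MvPolynomial (Fin n ⊕ (Fin κ ⊕ Fin κ)) ℤ ≃ₐ[ℤ] MvPolynomial (Fin M) ℤ,
        IsSparse (ψ (stabS f κ)) → EveryPrime f := by
    rintro n κ M f hf ψ ⟨r, v, a, hr, hv, ha, hψ⟩ p hp T₀ μ hμ hP b hb0 hb
    exact sparse_down hr hf v hv a ha ψ hψ hp hμ hP hb0 hb
  refine ⟨h1, ?_, ?_⟩
  · intro n κ Φ q hf hS
    obtain ⟨ψ, hψ⟩ := gkS Φ q
    refine h1 n κ (n + (κ + κ)) _ hf (ψ.trans (renameEquiv ℤ (spl n κ κ).symm)) ?_
    rw [AlgEquiv.trans_apply, hψ]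
    exact hS
  · intro n κ r s hr hκ m hm hm0 w ι hw h₀ h hS hh
    exact cmpH hr hκ m hm hm0 w ι hw h₀ h hS hh

end Pool.Agent.Results.MP_5d9b3c_ag.CompositionsEveryPrime
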