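import Pool.Agent.TH192.PA.Poinc

set_option autoImplicit false

/-! # Poles of Igusa's Poincaré series of forms over determinantal ideals, for every prime

Let `x` be the generic matrix of one of the three spaces `S` of matrices: all `m × n` matrices, the
symmetric `n × n` matrices, the skew symmetric `n × n` matrices (`MSpace`). For `t < T` let
`F_t = ∑_j y_{t,j} M_j(x)`, where the `M_j` are the `p t`-minors of `x` (the Pfaffians of size
`2 (p t)` in the skew symmetric case), `p t < min (m, n)`, `p t < n`, or `2 (p t) + 1 < n`
(`Small`), and the `y_{t,j}` are further variables, separate for each `t`. Let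
`f = ∏ t, F_t ^ a t ∈ ℤ[x, y]` (`MSpace.formZ`).

Everything comes from the starting library `Pool.Agent.TH192`, for EVERY prime `q`; nothing is taken
from a resolution of singularities. The Igusa zeta function of `f` times
`∏_d (q ^ (ν_d) - q ^ (-N_d s)) ∏_t (q - q ^ (-a t s))` is a polynomial in `q ^ (-s)` (Schur
complements and the uniqueness of the Haar measure), `ν_d` the codimension of the matrices of rank
`≤ d` (`≤ 2 d`), `N_d = ∑ t, a t max (p t - d, 0)`; the numbers `-ν_d / N_d` (`N_d > 0`) and `-1 / a t`
are roots of the Bernstein-Sato polynomial, because the divisors over the rank loci are Rees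
divisors of the product of the powers of the ideals of minors; and every pole of the Poincaré
series gives a pole of the zeta function. -/

namespace Pool.Agent.Results.MP_5d9b3c_ag.DeterminantalForms

open Pool.Agent.TH192.DT Pool.Agent.TH192.PA Pool.Agent.W427.SMC
open Pool.Agent.W206.CU (IsPoleOfOrder)

/-- **Denef's question on the poles of Igusa's Poincaré series for `f = ∏ t, F_t ^ a t`**, `F_t` the
forms with the minors of size `p t` of a generic, symmetric or skew symmetric matrix as
coefficients, for every prime `q`.

`poincare q f = ∑_m a_m (q ^ (-n) T) ^ m`, `a_m` the number of the zeros of `f` modulo `q ^ m`, `n` the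
number of the variables. `IsPoleOfOrder P T₀ r`, `r > 0`, says that the rational function `P` has a
pole of order `r` at `T₀`. `IsBFunction f b` says that `b(s) f ^ s = P(s) f ^ (s + 1)` for a
differential operator `P(s)` in the Weyl algebra, polynomial in `s`; the Bernstein-Sato polynomial
`b_f` is one of these polynomials `b`. -/
theorem result (S : MSpace) (T : ℕ) (p a : Fin T → ℕ) (hp : ∀ t, S.Small (p t))
    (q : ℕ) [Fact q.Prime] (T₀ : ℂ) (r : ℕ) (hr : 0 < r)
    (h : IsPoleOfOrder (Pool.Agent.W206.CU.poincare q (S.formZ p a)) T₀ r) (b : Polynomial ℂ)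
    (hb : Pool.Agent.H628R4.TP.IsBFunction
      (MvPolynomial.map (Int.castRingHom ℂ) (S.formZ p a)) b) :
    b.eval ((-Real.log ‖T₀‖ / Real.log q : ℝ) : ℂ) = 0 :=
  poincare_root S T p a hp T₀ r hr h b hb

end Pool.Agent.Results.MP_5d9b3c_ag.DeterminantalForms
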