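import Pool.Agent.TH216.EP.GenP

/-!
# Poles of Igusa's Poincaré series for generic integral coefficients and EVERY prime, with orders

Let `f = ∑_j c_j x ^ (v j) + h`, where `h ∈ ℤ[x_1, …, x_n]` is an arbitrary polynomial whose exponents lie in the
Newton polyhedron of the `v j ≠ 0`, and only the integral coefficients `c_j` (for instance at the vertices of
the Newton polyhedron of `f`) are generic: `g(c) ≠ 0` for a certain nonzero polynomial `g` over `ℚ`, which
depends only on `v` and `h`.  Suppose that every candidate pole `- |a| / N_a` is `-1`, or comes from a facet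
which contains a non-`B1` simplex, or is such that at every `v j` the facets at this level which contain `v j`
are simplices or `B1`-facets in a common direction.  Then for EVERY prime `p` (no prime is excluded: `f` may be
degenerate modulo `p`, and its coefficients may be divisible by `p`) and for every pole `T₀` of Igusa's
Poincaré series of `f`, the number `t₀ = - log |T₀| / log p` is a root of the Bernstein-Sato polynomial of
`f`; it is rational, and if the level `-t₀` is of the last kind, then the order of the pole is at most the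
multiplicity of the root.

The definitions `spa`, `NP`, `gord`, `IsRay`, `face`, `NonB`, `SimH`, `BD`, `LocS`, `HypL`, `poincare`,
`IsPoleOfOrder`, `IsBFunction` are in the starting library.
-/

set_option autoImplicit false

namespace Pool.Agent.Results.MP_5d9b3c_ag.GenericEveryPrime

open Pool.Agent.W425.ND (spa)
open Pool.Agent.W425.SV (NP)
open Pool.Agent.W206.CU (poincare IsPoleOfOrder)
open Pool.Agent.H628R4.TP (IsBFunction)
open Pool.Agent.TH216.MF (HypL LocS)

/-- **Denef's question for polynomials over `ℤ` with generic coefficients, for every prime, with orders.**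

`spa v c` is the polynomial `∑_j c_j x ^ (v j)`; `NP v w`: `w` is in the Newton polyhedron
`conv {v j} + ℝ_{≥ 0} ^ n`; `gord v a = N_a = min_j ⟨a, v j⟩`; `IsRay v a`: `a ∈ ℕ ^ n` spans a ray of the normal
fan.  `HypL v h` says that for every ray `a` with `N_a > 0` one of the following holds:
* `|a| = N_a`;
* `|a| / N_a = |a'| / N_{a'}` for some `a' ∈ ℕ ^ n` with `N_{a'} > 0` and `NonB v False a'`: there is a set `J` of
  `#{i | a' i ≠ 0}` elements with `⟨a', v j⟩ = N_{a'}` for `j ∈ J` such that the vectors `(v j i)_{a' i ≠ 0}`,
  `j ∈ J`, are linearly independent and no `x_i` with `a' i ≠ 0` occurs in exactly one of the monomials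
  `x ^ (v j)`, `j ∈ J`, and there with exponent `1`;
* `LocS v h (|a| / N_a)`: for every `j1` there is a variable `x_i` such that every ray `a'` with
  `|a'| / N_{a'} = |a| / N_a`, `N_{a'} > 0`, whose face contains `v j1`, is a simplex (`SimH`) or is `B1` in the
  direction `i` (`BD`).

`poincare p f = ∑_m a_m (p ^ (-n) T) ^ m`, `a_m` the number of zeros of `f` modulo `p ^ m`; `IsPoleOfOrder P T₀ m`:
the rational function `P` has a pole of order `m` at `T₀`; `IsBFunction f b`: `b(s) f ^ s = P(s) f ^ (s + 1)` for a
differential operator `P(s)` in the Weyl algebra, polynomial in `s` (the Bernstein-Sato polynomial is one of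
these `b`). -/
theorem result {n r : ℕ} (hr : 0 < r) (v : Fin r → Fin n → ℕ) (hv : Function.Injective v)
    (hv0 : ∀ j, v j ≠ 0) (h : MvPolynomial (Fin n) ℤ) (hh : ∀ w ∈ h.support, NP v w)
    (hL : HypL v h) :
    ∃ g : MvPolynomial (Fin r) ℚ, g ≠ 0 ∧
      ∀ c : Fin r → ℤ, MvPolynomial.eval (fun j => (c j : ℚ)) g ≠ 0 →
      ∀ p : ℕ, p.Prime →
        ∀ (T₀ : ℂ) (m : ℕ), 0 < m → IsPoleOfOrder (poincare p (spa v c + h)) T₀ m →
        ∀ b : Polynomial ℂ, b ≠ 0 →
          IsBFunction (MvPolynomial.map (Int.castRingHom ℂ) (spa v c + h)) b →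
          b.eval ((-Real.log ‖T₀‖ / Real.log p : ℝ) : ℂ) = 0 ∧
          ∃ σ : ℚ, -Real.log ‖T₀‖ / Real.log p = -(σ : ℝ) ∧ (LocS v h σ →
            m ≤ b.rootMultiplicity ((-Real.log ‖T₀‖ / Real.log p : ℝ) : ℂ)) :=
  Pool.Agent.TH216.EP.genPE hr v hv hv0 h hh hL

end Pool.Agent.Results.MP_5d9b3c_ag.GenericEveryPrime
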