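import Pool.Agent.TH187.SA.Classes
import Pool.Agent.TH187.SA.Mult
import Pool.Agent.TH192.DT.MotZ
import Pool.Agent.W574.PA.Forms

set_option autoImplicit false

/-! # Poles of Igusa's Poincaré series of products of powers of forms over products of linear ideals

Let `L s = zeros (c s)`, `s ∈ S`, be proper linear subspaces of the affine space `ℂ ^ σ`, given as the
zeros of linear forms with the coefficients `c s j`. For `t ∈ T` let
`F_t = ∑_j y_{t,j} M_{t,j}(x)`, where the `M_{t,j}` are the products of these linear forms, `e t s`
of them from the family of index `s`, `s ∈ S` (`arrGen`; they generate the ideal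
`∏ s, I(L s) ^ e t s`), and the `y_{t,j}` are further variables, separate for each `t`
(`blockForm`). Let `f = ∏ t, F_t ^ a t` (`powProd`).

Let `𝒢` be a building set of linear subspaces (De Concini and Procesi) which contains the `L s`
which occur in `f`, for example the set of these `L s`, if it is closed under intersections. Let
`Y` be the wonderful model, which is obtained from the affine space by blowing up the strict
transforms of the members of `𝒢`, in the order of the dimension. It is smooth, the components `E_G`,
`G ∈ 𝒢`, cross normally, the multiplicity of the Jacobian determinant along `E_G` is `ν_G - 1` with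
`ν_G = codim G`, and the ideal of `L s` becomes the ideal of the divisor `∑ E_G`, over the
`G ⊆ L s`. So locally on `Y` the form `F_t` is one of the `M_{t,j}` times
`y_{t,j} + ∑_{i ≠ j} g_i y_{t,i}`; hence `Y` times the space of the `y` is an embedded resolution of
`f`, with the components `E_G`, of multiplicity `N_G = ∑ t, a t ∑ e t s`, the second sum over the
`s` with `G ⊆ L s`, and, for `a t > 0`, the strict transform of `F_t = 0`, with multiplicity `a t`
and `ν = 1` (`mulA`, `nuA`). 

Let now the `L s` be defined over `ℚ`. For all prime numbers `p` outside a finite set the resolution has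
good reduction modulo `p`, and by Denef's formula the Igusa zeta function of `f` over `ℤ_p ^ n` (`n` the
number of the variables `x` and `y`) is, as a power series in `T = p ^ (-s)`, the series
`∑_I k_I ∏_{i ∈ I} p ^ (-ν_i) T ^ (N_i) / (1 - p ^ (-ν_i) T ^ (N_i))` (`dlZ`) with
`k_I = p ^ (-n) (p - 1) ^ |I| #E_I°(𝔽_p) ∈ ℚ`; Igusa's Poincaré series is
`P = (1 - T Z) / (1 - T)`. It has no pole at `T = 1`, since the value of the rational function `Z` at
`T = 1` is the measure of `ℤ_p ^ n`, that is `1`.

The theorem needs that the `G` are Rees flats (`IsReesFlat`; an equivalent condition is that `E_G` is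
a Rees divisor of the product of the `I(L s)`). This is so for the `L s` themselves (`SelfRees`);
hence the theorem applies to all `f` for which the `L s` which occur are a building set, in
particular if they are closed under intersections.

Let now `L s = H_s ⊗ ℂ ^ m`, where `H_s` is the hyperplane `α s = 0` of `ℂ ^ ι` (`copies`). Then the
`X ⊗ ℂ ^ m` (`power`), `X` an irreducible flat of the `H_s` which occur, are a building set. They are
Rees flats if `codim X ≤ m`; so the theorem applies to all arrangements of hyperplanes of rank at
most `m`. They are also Rees flats if `X` is constructible (`IsConstructible`) and `m ≥ 2`; the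
irreducible flats of a supersolvable arrangement are constructible (`MultRees`). For example, this
applies to the diagonals `x_i = x_j` of the configurations of `n` points in `ℂ ^ m`, `m ≥ 2`, if all
the pairs occur, or if the pairs which occur are the edges of a chordal graph.

The proof is in the starting library `Pool.Agent.TH187`, `Pool.Agent.TH192`: a functional equation of
`f` gives a functional equation of the product of the ideals, with the same `b`, and the `E_G` are
Rees divisors of this ideal; the roots `-1 / a t` come from the strict transforms. The starting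
results `SubspaceProducts`, `SubspaceProductsLocal`, ... use this for topological zeta functions. -/

namespace Pool.Agent.Results.MP_5d9b3c_ag.SubspaceProducts

open Pool.Agent.W574.HS Pool.Agent.H628R4.TP Pool.Agent.TH192.DT Pool.Agent.TH187.SA
open Pool.Agent.W574.PA Pool.Agent.W574.MO

theorem geoU_eq {M : Type} [CommRing M] (u : Mˣ) (n a : ℕ) :
    geoU u (-(n : ℤ)) (a : ℤ) = geo u a n := by
  unfold geoU geo
  rw [Int.toNat_natCast, zpow_neg, zpow_natCast, inv_pow]

theorem dlZ_den {M : Type} [CommRing M] (u : Mˣ) {ι : Type} [Fintype ι] (ν N : ι → ℕ)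
    (hν : ∀ i, 0 < ν i) (k : Finset {i // 0 < N i} → M) :
    dlZ u ν N k ∈ DenRing u (fun a n => ∃ i, a = N i ∧ n = ν i) := by
  refine Subring.sum_mem _ fun I _ => Subring.mul_mem _ (C_mem _)
    (Subring.prod_mem _ fun i _ => Subring.mul_mem _ (Subring.mul_mem _ (C_mem _)
      (Subring.pow_mem _ X_mem _)) ?_)
  rw [geoU_eq]
  exact geo_mem i.2 (hν i.1) ⟨i.1, rfl, rfl⟩

/-- a pole of the Poincaré series, except `1`, is a pole of the zeta function -/
theorem pole_of_poinc {Z P : PowerSeries ℚ}
    (h : (1 - PowerSeries.X) * P = 1 - PowerSeries.X * Z) {T₀ : ℂ} (h1 : T₀ ≠ 1)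
    (hP : IsPoleAt P T₀) : IsPoleAt Z T₀ := by
  intro D Q hD hQ
  have h2 : ((D * (1 - Polynomial.X) : Polynomial ℚ) : PowerSeries ℚ) * P =
      ((D - Polynomial.X * Q : Polynomial ℚ) : PowerSeries ℚ) := by
    rw [Polynomial.coe_mul, Polynomial.coe_sub, Polynomial.coe_sub, Polynomial.coe_one,
      Polynomial.coe_X, Polynomial.coe_mul, Polynomial.coe_X, mul_assoc, h, ← hQ]
    ring
  have hX : (1 - Polynomial.X : Polynomial ℚ) ≠ 0 := by
    intro h0
    have := congrArg (Polynomial.eval 0) h0
    simp at this
  have h3 := hP _ _ (mul_ne_zero hD hX) h2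
  rw [map_mul, map_sub, map_one, Polynomial.aeval_X] at h3
  exact (mul_eq_zero.1 h3).resolve_right (sub_ne_zero.2 h1.symm)

/-- **Denef's question on the poles of Igusa's Poincaré series of `f = ∏ t, F_t ^ a t`.** For every
prime number `p`, every series `Z` in `T` with rational coefficients which is given by Denef's
formula on the resolution described above, with arbitrary rational numbers `k I` (`dlZ`), and the
series `P` with `(1 - T) P = 1 - T Z`, if `T = p ^ (-s) ≠ 1` is a pole of `P` (`IsPoleAt`), then `Re s`
is a root of every polynomial `b` with `b(s) f ^ s = P(s) f ^ (s + 1)`, where `P(s)` is in the Weyl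
algebra (`IsBFunction`), in particular of the Bernstein-Sato polynomial of `f`. -/
def PoincarePoles : Prop :=
  ∀ {σ S T I : Type} [Fintype σ] [DecidableEq σ] [Fintype S] [DecidableEq S] [Fintype T]
    [DecidableEq T] [Fintype I] {κ : S → Type} [∀ s, Fintype (κ s)] [∀ s, DecidableEq (κ s)]
    (c : (s : S) → κ s → σ → ℂ) (_ : ∀ s, ∃ j, c s j ≠ 0) (e : T → S → ℕ) (a : T → ℕ)
    (G : I → Submodule ℂ (σ → ℂ))
    (_ : ∀ i, IsReesFlat (fun s => zeros (c s)) (Occurs e a) (G i)),
    ∀ (p : ℕ) (hp : p.Prime)
      (k : Finset {x // 0 < mulA (fun s => zeros (c s)) e a G x} → ℚ) (P : PowerSeries ℚ) (s : ℂ),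
      (1 - PowerSeries.X) * P = 1 - PowerSeries.X *
        dlZ (pu p hp) (nuA G T) (mulA (fun s => zeros (c s)) e a G) k →
      (p : ℂ) ^ (-s) ≠ 1 → IsPoleAt P ((p : ℂ) ^ (-s)) →
      ∀ b : Polynomial ℂ, IsBFunction (powProd a fun t => arrGen c (e t)) b →
        b.eval (s.re : ℂ) = 0

/-- Proper subspaces are Rees flats of every finite family which contains them. -/
def SelfRees : Prop :=
  ∀ {σ S : Type} [Fintype σ] [DecidableEq σ] [Finite S] (H : S → Submodule ℂ (σ → ℂ))
    (A : S → Prop), (∀ s, A s → H s ≠ ⊤) → ∀ s, A s → IsReesFlat H A (H s)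

/-- Let `L s = H_s ⊗ ℂ ^ m`, where `H_s` is the hyperplane `α s = 0`. Let `X` be an irreducible flat
of the `H_s`, `s ∈ A`, of codimension at most `m`, or let `m ≥ 2` and let `X` be constructible from
the `H_s`, `s ∈ A`. Then `X ⊗ ℂ ^ m` is a Rees flat of the `L s`, `s ∈ A`, of codimension
`m codim X`. -/
def MultRees : Prop :=
  ∀ {ι S : Type} [Fintype ι] [DecidableEq ι] [Finite S] (m : ℕ) (α : S → ι → ℂ) (A : S → Prop)
    (X : Submodule ℂ (ι → ℂ)), (∀ s, A s → α s ≠ 0) →
    (IsIrreducibleFlat α A X ∧ Fintype.card ι ≤ m + Module.finrank ℂ X ∨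
      IsConstructible α A X ∧ 2 ≤ m) →
    IsReesFlat (fun s => zeros (copies m (α s))) A (power m X) ∧
      Fintype.card (ι × Fin m) - Module.finrank ℂ (power m X)
        = m * (Fintype.card ι - Module.finrank ℂ X)

/-- **Denef's question (Q1) for `f = ∏ t, F_t ^ a t`** and almost all primes, the `F_t` general forms
(with new variables as coefficients) over products of powers of ideals of linear subspaces, on the
wonderful model of a building set of Rees flats; and two criteria for Rees flats. -/
theorem result : PoincarePoles ∧ SelfRees ∧ MultRees := by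
  refine ⟨?_, ?_, ?_⟩
  · intro σ S T I _ _ _ _ _ _ _ κ _ _ c hc e a G hG p hp k P s hP h1 hs b hb
    obtain ⟨m, n, hm, hn, ⟨x, rfl, rfl⟩, hre⟩ := re_pole p hp
      (dlZ_den _ _ _ (nuA_pos G hG) k) s (pole_of_poinc hP h1 hs)
    have h1 := pow_arr c e a G hG b
      (powData_global a _ (fun t => arrGen_ne c hc (e t)) b hb) x 0 hm
    rw [Nat.cast_zero, add_zero] at h1
    rw [hre]
    push_cast
    exact h1
  · intro σ S _ _ _ H A hH s hs
    exact isReesFlat_self H A hH s hs
  · intro ι S _ _ _ m α A X h0 hX
    exact ⟨isReesFlat_multiple m α A X h0 hX, codim_power m X⟩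

end Pool.Agent.Results.MP_5d9b3c_ag.SubspaceProducts
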